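import Pool.Agent.J4H68.Henon.Count

/-!
# A Hénon map of degree `d` over `ℚ` with more than `(d + 2) ^ 2` rational periodic points

The generalized Hénon map `(x, y) ↦ (y, y (y - 1) ⋯ (y - d + 1) / d! + d - 1 - x)` of degree
`d ≥ 2` has at least `(d + 2) ^ 2 + 1` periodic points with integral coordinates if `d` is even and
at least `(d + 2) ^ 2 + 4` if `d` is odd.

Proof. All integral points of `[-1, d] ^ 2`, except for `(-1, -1)` if `d` is even, together with
`(d, d + 1)` and `(d + 1, d)` and, if `d` is odd, `(-1, -2)` and `(-2, -1)`, form a finite set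
which the map maps to itself, and the map is injective.
-/

namespace Pool.Agent.Results.MP_0e6b5f_nt.MoreThanSquare

open Polynomial Function J4H68.Henon

/-- For every `d ≥ 2` there is a generalized Hénon map of degree `d` over `ℚ` with at least
`(d + 2) ^ 2 + 1` rational periodic points, and with at least `(d + 2) ^ 2 + 4` if `d` is odd. -/
theorem result : ∀ d : ℕ, 2 ≤ d → ∃ F : ℚ[X], F.natDegree = d ∧
    (((d + 2) ^ 2 + 1 : ℕ) : ℕ∞) ≤ (periodicPts (henon F 1)).encard ∧
    (Odd d → (((d + 2) ^ 2 + 4 : ℕ) : ℕ∞) ≤ (periodicPts (henon F 1)).encard) := by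
  intro d hd
  refine ⟨Fd d, Fd_natDegree d, ?_, fun ho => count_odd d hd ho⟩
  rcases Nat.even_or_odd d with he | ho
  · exact count_even d hd he
  · refine le_trans ?_ (count_odd d hd ho)
    exact_mod_cast (by omega : (d + 2) ^ 2 + 1 ≤ (d + 2) ^ 2 + 4)

end Pool.Agent.Results.MP_0e6b5f_nt.MoreThanSquare
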